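import Pool.Agent.Lib_MP_d26ff6_al.Defs
import Pool.Agent.ETC.ToData

/-!
The saturation theorem for finite quaternionic structures.
-/

namespace Pool.Agent.ETC.Old.SaturationTheorem

/-- Let `S = (G, -1, q)` be a finite quaternionic structure and `α` a map from `G` to the set of
quaternions. If on any two elements `x, y` of `G` and their product `α` is given by one element
`v` (which may depend on `x, y`), then `α` is given by one element `p` on all of `G`. -/
theorem result (S : QS.QStruct) [Finite S.G] (α : S.G → S.Q)
    (h : ∀ x y : S.G, ∃ v : S.G, α x = S.q x v ∧ α y = S.q y v ∧ α (x * y) = S.q (x * y) v) :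
    ∃ p : S.G, ∀ x : S.G, α x = S.q x p :=
  ETC.saturationQS S α h

end Pool.Agent.ETC.Old.SaturationTheorem
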